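import Mathlib
import Pool.Agent.Lib.helper20.DomGame

namespace Pool.Agent.Results.MP_e0e877_co.Q1

open Pool.Agent.Lib.helper20.DomGame

theorem result : ¬ ∃ (n : ℕ) (H : SimpleGraph (Fin n)) (k : ℕ), 1 ≤ k ∧
    (BobWins H k (fun _ => none) true ∨ ¬ AliceWins H k (fun _ => none) true) ∧
      AliceWins H (k + 1) (fun _ => none) true := by
  rintro ⟨n, H, k, hk, h1, h2⟩
  obtain ⟨a, b⟩ := main H k hk true h2
  exact h1.elim b fun h => h a

end Pool.Agent.Results.MP_e0e877_co.Q1
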